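import Pool.Agent.H15.EH.Q
import Pool.Agent.H10.EH.FC

/-!
# EHP, block FDATA: `FData` for `F_A`, `F_B` and for `FF (l, t) = F (l, B t)`
-/

set_option autoImplicit false

open MeasureTheory Set Filter Topology

noncomputable section

namespace Pool.Agent.H97.EH

open Pool.Agent.H15.EH

/-! ## from `ContDiffOn` to named partial derivatives -/

theorem part1 {f f1 : ℝ → ℝ → ℝ} (n : ℕ)
    (hf : ContDiffOn ℝ ((n + 1 : ℕ) : WithTop ℕ∞) (fun x : ℝ × ℝ => f x.1 x.2) U)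
    (h : ∀ l g, 0 < g → HasDerivAt (fun x => f x g) (f1 l g) l) :
    (∀ x ∈ U, fderiv ℝ (fun x : ℝ × ℝ => f x.1 x.2) x (1, 0) = f1 x.1 x.2) ∧
    ContDiffOn ℝ ((n : ℕ) : WithTop ℕ∞) (fun x : ℝ × ℝ => f1 x.1 x.2) U := by
  have h1 : ∀ x ∈ U, fderiv ℝ (fun x : ℝ × ℝ => f x.1 x.2) x (1, 0) = f1 x.1 x.2 := by
    rintro ⟨l, g⟩ hx
    have hd : HasFDerivAt (fun x : ℝ × ℝ => f x.1 x.2)
        (fderiv ℝ (fun x : ℝ × ℝ => f x.1 x.2) (l, g)) (l, g) :=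
      ((hf.differentiableOn (by simp)).differentiableAt (isOpen_U.mem_nhds hx)).hasFDerivAt
    have hc : HasDerivAt (fun t : ℝ => ((t, g) : ℝ × ℝ)) (1, 0) l :=
      (hasDerivAt_id l).prodMk (hasDerivAt_const l g)
    have h2 := hd.comp_hasDerivAt l hc
    exact h2.unique (h l g hx)
  refine ⟨h1, ?_⟩
  have h2 : ContDiffOn ℝ ((n : ℕ) : WithTop ℕ∞)
      (fun x => fderiv ℝ (fun x : ℝ × ℝ => f x.1 x.2) x (1, 0)) U :=
    (hf.fderiv_of_isOpen isOpen_U (by norm_cast)).clm_apply contDiffOn_const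
  exact h2.congr fun x hx => (h1 x hx).symm

theorem part2 {f f2 : ℝ → ℝ → ℝ} (n : ℕ)
    (hf : ContDiffOn ℝ ((n + 1 : ℕ) : WithTop ℕ∞) (fun x : ℝ × ℝ => f x.1 x.2) U)
    (h : ∀ l g, 0 < g → HasDerivAt (f l) (f2 l g) g) :
    (∀ x ∈ U, fderiv ℝ (fun x : ℝ × ℝ => f x.1 x.2) x (0, 1) = f2 x.1 x.2) ∧
    ContDiffOn ℝ ((n : ℕ) : WithTop ℕ∞) (fun x : ℝ × ℝ => f2 x.1 x.2) U := by
  have h1 : ∀ x ∈ U, fderiv ℝ (fun x : ℝ × ℝ => f x.1 x.2) x (0, 1) = f2 x.1 x.2 := by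
    rintro ⟨l, g⟩ hx
    have hd : HasFDerivAt (fun x : ℝ × ℝ => f x.1 x.2)
        (fderiv ℝ (fun x : ℝ × ℝ => f x.1 x.2) (l, g)) (l, g) :=
      ((hf.differentiableOn (by simp)).differentiableAt (isOpen_U.mem_nhds hx)).hasFDerivAt
    have hc : HasDerivAt (fun t : ℝ => ((l, t) : ℝ × ℝ)) (0, 1) g :=
      (hasDerivAt_const g l).prodMk (hasDerivAt_id g)
    have h2 := hd.comp_hasDerivAt g hc
    exact h2.unique (h l g hx)
  refine ⟨h1, ?_⟩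
  have h2 : ContDiffOn ℝ ((n : ℕ) : WithTop ℕ∞)
      (fun x => fderiv ℝ (fun x : ℝ × ℝ => f x.1 x.2) x (0, 1)) U :=
    (hf.fderiv_of_isOpen isOpen_U (by norm_cast)).clm_apply contDiffOn_const
  exact h2.congr fun x hx => (h1 x hx).symm

/-- derivative in the first variable of a jointly differentiable function -/
theorem hasDerivAt_fst {f : ℝ → ℝ → ℝ}
    (hf : DifferentiableOn ℝ (fun x : ℝ × ℝ => f x.1 x.2) U) {l g : ℝ} (hg : 0 < g) :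
    HasDerivAt (fun x => f x g) (fderiv ℝ (fun x : ℝ × ℝ => f x.1 x.2) (l, g) (1, 0)) l := by
  have hx : ((l, g) : ℝ × ℝ) ∈ U := hg
  have hd := (hf.differentiableAt (isOpen_U.mem_nhds hx)).hasFDerivAt
  have hc : HasDerivAt (fun t : ℝ => ((t, g) : ℝ × ℝ)) (1, 0) l :=
    (hasDerivAt_id l).prodMk (hasDerivAt_const l g)
  exact hd.comp_hasDerivAt l hc

theorem hasDerivAt_snd {f : ℝ → ℝ → ℝ}
    (hf : DifferentiableOn ℝ (fun x : ℝ × ℝ => f x.1 x.2) U) {l g : ℝ} (hg : 0 < g) :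
    HasDerivAt (f l) (fderiv ℝ (fun x : ℝ × ℝ => f x.1 x.2) (l, g) (0, 1)) g := by
  have hx : ((l, g) : ℝ × ℝ) ∈ U := hg
  have hd := (hf.differentiableAt (isOpen_U.mem_nhds hx)).hasFDerivAt
  have hc : HasDerivAt (fun t : ℝ => ((l, t) : ℝ × ℝ)) (0, 1) g :=
    (hasDerivAt_const g l).prodMk (hasDerivAt_id g)
  exact hd.comp_hasDerivAt g hc

/-- `FData` from `C^3` and the named derivatives of order `≤ 2`; `F_llg := ∂_g F_ll` -/
theorem fdata_of_contDiff {F Fl Fg Fll Flg Fgg : ℝ → ℝ → ℝ}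
    (hF : ContDiffOn ℝ ((3 : ℕ) : WithTop ℕ∞) (fun x : ℝ × ℝ => F x.1 x.2) U)
    (dl : ∀ l g, 0 < g → HasDerivAt (fun x => F x g) (Fl l g) l)
    (dg : ∀ l g, 0 < g → HasDerivAt (F l) (Fg l g) g)
    (dll : ∀ l g, 0 < g → HasDerivAt (fun x => Fl x g) (Fll l g) l)
    (dlg : ∀ l g, 0 < g → HasDerivAt (Fl l) (Flg l g) g)
    (dgl : ∀ l g, 0 < g → HasDerivAt (fun x => Fg x g) (Flg l g) l)
    (dgg : ∀ l g, 0 < g → HasDerivAt (Fg l) (Fgg l g) g) :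
    FData F Fl Fg Fll Flg Fgg (fun l g => deriv (Fll l) g) := by
  obtain ⟨-, cl⟩ := part1 2 hF dl
  obtain ⟨-, cg⟩ := part2 2 hF dg
  obtain ⟨ell, cll⟩ := part1 1 cl dll
  obtain ⟨elg, clg⟩ := part2 1 cl dlg
  obtain ⟨-, cgg⟩ := part2 1 cg dgg
  have dllg : ∀ l g, 0 < g → HasDerivAt (Fll l) (deriv (Fll l) g) g := fun l g hg =>
    (hasDerivAt_snd (cll.differentiableOn (by simp)) hg).differentiableAt.hasDerivAt
  obtain ⟨ellg, cllg⟩ := part2 0 cll dllg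
  refine ⟨dl, dg, dll, dlg, dgl, dgg, dllg, ?_, cl.continuousOn, cg.continuousOn,
    cll.continuousOn, clg.continuousOn, cgg.continuousOn, cllg.continuousOn⟩
  intro l g hg
  have hx : ((l, g) : ℝ × ℝ) ∈ U := hg
  have h1 := hasDerivAt_fst (clg.differentiableOn (by simp)) (l := l) hg
  refine h1.congr_deriv ?_
  -- symmetry of the second derivative of `Fl`
  set h : ℝ × ℝ → ℝ := fun x => Fl x.1 x.2 with hh
  have hcd : ContDiffAt ℝ ((2 : ℕ) : WithTop ℕ∞) h (l, g) := cl.contDiffAt (isOpen_U.mem_nhds hx)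
  have hsym : IsSymmSndFDerivAt ℝ h (l, g) := by
    refine hcd.isSymmSndFDerivAt ?_
    simp
  have hd2 : DifferentiableAt ℝ (fderiv ℝ h) (l, g) :=
    ((hcd.fderiv_right (m := 1) (by norm_cast)).differentiableAt (by simp))
  have e1 : fderiv ℝ (fun x : ℝ × ℝ => Flg x.1 x.2) (l, g) (1, 0) =
      fderiv ℝ (fderiv ℝ h) (l, g) (1, 0) (0, 1) := by
    have h2 : (fun x : ℝ × ℝ => Flg x.1 x.2) =ᶠ[𝓝 (l, g)] fun x => fderiv ℝ h x (0, 1) := by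
      filter_upwards [isOpen_U.mem_nhds hx] with x hx'
      exact (elg x hx').symm
    rw [h2.fderiv_eq]
    have h3 : HasFDerivAt (fun x => fderiv ℝ h x (0, 1))
        ((ContinuousLinearMap.apply ℝ ℝ ((0, 1) : ℝ × ℝ)).comp (fderiv ℝ (fderiv ℝ h) (l, g)))
        (l, g) :=
      (ContinuousLinearMap.apply ℝ ℝ ((0, 1) : ℝ × ℝ)).hasFDerivAt.comp _ hd2.hasFDerivAt
    rw [h3.fderiv]
    simp
  have e2 : deriv (Fll l) g = fderiv ℝ (fderiv ℝ h) (l, g) (0, 1) (1, 0) := by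
    rw [← ellg (l, g) hx]
    have h2 : (fun x : ℝ × ℝ => Fll x.1 x.2) =ᶠ[𝓝 (l, g)] fun x => fderiv ℝ h x (1, 0) := by
      filter_upwards [isOpen_U.mem_nhds hx] with x hx'
      exact (ell x hx').symm
    rw [h2.fderiv_eq]
    have h3 : HasFDerivAt (fun x => fderiv ℝ h x (1, 0))
        ((ContinuousLinearMap.apply ℝ ℝ ((1, 0) : ℝ × ℝ)).comp (fderiv ℝ (fderiv ℝ h) (l, g)))
        (l, g) :=
      (ContinuousLinearMap.apply ℝ ℝ ((1, 0) : ℝ × ℝ)).hasFDerivAt.comp _ hd2.hasFDerivAt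
    rw [h3.fderiv]
    simp
  rw [e1, e2]
  exact hsym.eq _ _

/-! ## `F_A`, `F_B` -/

open Pool.EH in
theorem contDiffAt_RR {p : ℝ} (hp : 0 < p) (hp1 : p < 1) {x : ℝ × ℝ} (hx : x ∈ U)
    (n : WithTop ℕ∞) : ContDiffAt ℝ n (fun x : ℝ × ℝ => RR p x.1 x.2) x := by
  have hx' : 0 < x.2 := hx
  have h1 : ContDiffAt ℝ n (fun x : ℝ × ℝ => Real.exp x.1) x :=
    Real.contDiff_exp.contDiffAt.comp x contDiffAt_fst
  have h2 : ContDiffAt ℝ n (fun x : ℝ × ℝ => Real.cosh x.2) x :=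
    Real.contDiff_cosh.contDiffAt.comp x contDiffAt_snd
  have h3 : ContDiffAt ℝ n (fun x : ℝ × ℝ => Real.sinh x.2) x :=
    Real.contDiff_sinh.contDiffAt.comp x contDiffAt_snd
  have h4 : ContDiffAt ℝ n (fun x : ℝ × ℝ =>
      (Real.exp x.1 / 4 - p * Real.cosh x.2) ^ 2 + p * (1 - p) * (Real.sinh x.2) ^ 2) x :=
    (((h1.div_const 4).sub (contDiffAt_const.mul h2)).pow 2).add
      (contDiffAt_const.mul (h3.pow 2))
  exact h4.sqrt (RR_arg_pos hp hp1 x.1 hx').ne'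

open Pool.EH in
theorem contDiffAt_FA {p : ℝ} (hp : 0 < p) (hp1 : p < 1) {x : ℝ × ℝ} (hx : x ∈ U)
    (n : WithTop ℕ∞) : ContDiffAt ℝ n (fun x : ℝ × ℝ => FA p x.1 x.2) x := by
  have hx' : 0 < x.2 := hx
  have h1 : ContDiffAt ℝ n (fun x : ℝ × ℝ => Real.exp x.1) x :=
    Real.contDiff_exp.contDiffAt.comp x contDiffAt_fst
  have h4 : ContDiffAt ℝ n (fun x : ℝ × ℝ => (Real.exp x.1 / 4 + RR p x.1 x.2) / p) x :=
    ((h1.div_const 4).add (contDiffAt_RR hp hp1 hx n)).div_const p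
  have h5 : ContDiffAt ℝ n Real.arcosh ((Real.exp x.1 / 4 + RR p x.1 x.2) / p) :=
    Real.contDiffAt_arcosh (one_lt_A hp hp1 x.1 hx')
  exact h5.comp x h4

open Pool.EH in
theorem contDiffAt_FB {p : ℝ} (hp : 0 < p) (hp1 : p < 1) {x : ℝ × ℝ} (hx : x ∈ U)
    (n : WithTop ℕ∞) : ContDiffAt ℝ n (fun x : ℝ × ℝ => FB p x.1 x.2) x := by
  have hx' : 0 < x.2 := hx
  have h1 : ContDiffAt ℝ n (fun x : ℝ × ℝ => Real.exp x.1) x :=
    Real.contDiff_exp.contDiffAt.comp x contDiffAt_fst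
  have h2 : ContDiffAt ℝ n (fun x : ℝ × ℝ => Real.cosh x.2) x :=
    Real.contDiff_cosh.contDiffAt.comp x contDiffAt_snd
  have h4 : ContDiffAt ℝ n (fun x : ℝ × ℝ =>
      (RR p x.1 x.2 + Real.cosh x.2 - Real.exp x.1 / 4) / (1 - p)) x :=
    (((contDiffAt_RR hp hp1 hx n).add h2).sub (h1.div_const 4)).div_const (1 - p)
  have h5 : ContDiffAt ℝ n Real.arcosh
      ((RR p x.1 x.2 + Real.cosh x.2 - Real.exp x.1 / 4) / (1 - p)) :=
    Real.contDiffAt_arcosh (one_lt_B hp hp1 x.1 hx')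
  exact h5.comp x h4

theorem contDiffOn_FA {p : ℝ} (hp : 0 < p) (hp1 : p < 1) (n : WithTop ℕ∞) :
    ContDiffOn ℝ n (fun x : ℝ × ℝ => Pool.EH.FA p x.1 x.2) U :=
  fun _ hx => (contDiffAt_FA hp hp1 hx n).contDiffWithinAt

theorem contDiffOn_FB {p : ℝ} (hp : 0 < p) (hp1 : p < 1) (n : WithTop ℕ∞) :
    ContDiffOn ℝ n (fun x : ℝ × ℝ => Pool.EH.FB p x.1 x.2) U :=
  fun _ hx => (contDiffAt_FB hp hp1 hx n).contDiffWithinAt

/-- third derivative `∂_l^2 ∂_g F_A` -/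
def FAllg (p : ℝ) (l g : ℝ) : ℝ := deriv (Pool.EH.FAll p l) g

/-- third derivative `∂_l^2 ∂_g F_B` -/
def FBllg (p : ℝ) (l g : ℝ) : ℝ := deriv (Pool.EH.FBll p l) g

/-- the structure `FData` for `F_A` -/
theorem fdata_A {p : ℝ} (hp : 0 < p) (hp1 : p < 1) :
    FData (Pool.EH.FA p) (Pool.EH.FAl p) (Pool.EH.FAg p) (Pool.EH.FAll p) (Pool.EH.FAgl p)
      (Pool.EH.FAgg p) (FAllg p) :=
  fdata_of_contDiff (contDiffOn_FA hp hp1 _)
    (fun l _ hg => Pool.EH.hasDerivAt_FA_l hp hp1 l hg)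
    (fun l _ hg => Pool.EH.hasDerivAt_FA_g hp hp1 l hg)
    (fun l _ hg => Pool.EH.hasDerivAt_FAl_l hp hp1 l hg)
    (fun l _ hg => Pool.EH.hasDerivAt_FAl_g hp hp1 l hg)
    (fun l _ hg => Pool.EH.hasDerivAt_FAg_l hp hp1 l hg)
    (fun l _ hg => Pool.EH.hasDerivAt_FAg_g hp hp1 l hg)

/-- the structure `FData` for `F_B` -/
theorem fdata_B {p : ℝ} (hp : 0 < p) (hp1 : p < 1) :
    FData (Pool.EH.FB p) (Pool.EH.FBl p) (Pool.EH.FBg p) (Pool.EH.FBll p) (Pool.EH.FBgl p)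
      (Pool.EH.FBgg p) (FBllg p) :=
  fdata_of_contDiff (contDiffOn_FB hp hp1 _)
    (fun l _ hg => Pool.EH.hasDerivAt_FB_l hp hp1 l hg)
    (fun l _ hg => Pool.EH.hasDerivAt_FB_g hp hp1 l hg)
    (fun l _ hg => Pool.EH.hasDerivAt_FBl_l hp hp1 l hg)
    (fun l _ hg => Pool.EH.hasDerivAt_FBl_g hp hp1 l hg)
    (fun l _ hg => Pool.EH.hasDerivAt_FBg_l hp hp1 l hg)
    (fun l _ hg => Pool.EH.hasDerivAt_FBg_g hp hp1 l hg)

end Pool.Agent.H97.EH
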